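import Pool.Agent.H63.SB.Tk
import Pool.Agent.H63.SB.Targets

/-! Module A7 of MP_bd4439_gt (`sb_modules`): last step of the main case. -/

set_option autoImplicit false

namespace Pool.Agent.H87.SB

open Pool.Agent.H63.SB Set Filter Topology
open scoped RealInnerProductSpace

variable {E : Type} [NormedAddCommGroup E] [InnerProductSpace ℝ E] {K L : Set E}

theorem interior_smul_mem {D : Set E} (hD : ∀ u ∈ D, ∀ c : ℝ, 0 < c → c • u ∈ D) {u : E}
    (hu : u ∈ interior D) {c : ℝ} (hc : 0 < c) : c • u ∈ interior D := by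
  rw [mem_interior] at hu ⊢
  obtain ⟨t, htD, hto, hut⟩ := hu
  refine ⟨(fun v : E => c⁻¹ • v) ⁻¹' t, ?_, hto.preimage (continuous_const_smul _), ?_⟩
  · intro v hv
    have h1 := hD _ (htD hv) c hc
    rwa [smul_smul, mul_inv_cancel₀ hc.ne', one_smul] at h1
  · rwa [mem_preimage, smul_smul, inv_mul_cancel₀ hc.ne', one_smul]

theorem smul_Y {u : E} (hu : u ∈ Dir L \ Dir K) {c : ℝ} (hc : 0 < c) :
    c • u ∈ Dir L \ Dir K :=
  ⟨(smul_mem_Dir hc).2 hu.1, fun h => hu.2 ((smul_mem_Dir hc).1 h)⟩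

theorem smul_U {u : E} (hu : u ∈ interior (Dir L \ Dir K)) {c : ℝ} (hc : 0 < c) :
    c • u ∈ interior (Dir L \ Dir K) :=
  interior_smul_mem (fun _ h _ hc => smul_Y h hc) hu hc

theorem uc_add2 (h : UC K L) {q y : E} (hq : q ∈ interior (Dir L \ Dir K)) (hy : y ∈ Dir L \ Dir K)
    {s t : ℝ} (hs : 0 < s) (ht : 0 < t) : s • y + t • q ∈ interior (Dir L \ Dir K) :=
  h.add q hq _ (smul_Y hy hs).1 (smul_Y hy hs).2 t ht

theorem uc_Y_sub_closure (h : UC K L) {y : E} (hy : y ∈ Dir L \ Dir K) :
    y ∈ closure (interior (Dir L \ Dir K)) := by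
  obtain ⟨q, hq⟩ := h.nonempty
  have hc : Continuous fun t : ℝ => y + t • q := by fun_prop
  have h1 : Tendsto (fun t : ℝ => y + t • q) (𝓝[>] 0) (𝓝 y) :=
    (hc.tendsto' 0 y (by simp)).mono_left nhdsWithin_le_nhds
  refine mem_closure_of_tendsto h1 ?_
  filter_upwards [self_mem_nhdsWithin] with t ht
  exact h.add q hq y hy.1 hy.2 t ht

theorem uc_not_mem_closure (_h : UC K L) {z : E} (hz : z ∈ interior (Dir K)) :
    z ∉ closure (interior (Dir L \ Dir K)) := by
  intro hm
  obtain ⟨w, hw1, hw2⟩ := mem_closure_iff.1 hm _ isOpen_interior hz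
  exact (interior_subset hw2).2 (interior_subset hw1)

/-- Far along the direction `q` of `U` one is in `U`. -/
theorem uc_exists_add (_h : UC K L) {q : E} (hq : q ∈ interior (Dir L \ Dir K)) (p : E) :
    ∃ T : ℝ, 0 < T ∧ p + T • q ∈ interior (Dir L \ Dir K) := by
  have hc : Continuous fun r : ℝ => r • p + q := by fun_prop
  have h1 : Tendsto (fun r : ℝ => r • p + q) (𝓝[>] 0) (𝓝 q) :=
    (hc.tendsto' 0 q (by simp)).mono_left nhdsWithin_le_nhds
  have h2 := h1.eventually (isOpen_interior.mem_nhds hq)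
  obtain ⟨r, hr, hr0⟩ := (h2.and self_mem_nhdsWithin).exists
  have hr0' : 0 < r := hr0
  refine ⟨r⁻¹, inv_pos.2 hr0', ?_⟩
  have h3 := smul_U hr (inv_pos.2 hr0')
  have h4 : r⁻¹ • (r • p + q) = p + r⁻¹ • q := by
    rw [smul_add, smul_smul, inv_mul_cancel₀ hr0'.ne', one_smul]
  rwa [h4] at h3

theorem U_sub_int {q : E} (hq : q ∈ interior (Dir L \ Dir K)) : q ∈ interior (Dir L) :=
  interior_mono sdiff_subset hq

theorem U_not_K {q : E} (hq : q ∈ interior (Dir L \ Dir K)) : q ∉ Dir K :=
  (interior_subset hq).2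

theorem U_L {q : E} (hq : q ∈ interior (Dir L \ Dir K)) : q ∈ Dir L :=
  (interior_subset hq).1

theorem uc_sec (h : UC K L) {q v : E} (hq : q ∈ interior (Dir L \ Dir K))
    (hli : LinearIndependent ℝ ![q, v]) :
    ∃ (x : E) (l : ℝ), Hom K L (Submodule.span ℝ {q, v}) x l :=
  (h.good q (U_sub_int hq) (U_not_K hq) _ (finrank_span_pair hli)
    (Submodule.subset_span (by simp))).2.2

theorem uc_facts (h : UC K L) {q v : E} (hq : q ∈ interior (Dir L \ Dir K))
    (hli : LinearIndependent ℝ ![q, v]) :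
    -(ctr K L (Submodule.span ℝ {q, v})) ∈ Dir L \ Dir K ∧
    -(ctr K L (Submodule.span ℝ {q, v})) ∈ Submodule.span ℝ {q, v} ∧
    ∀ p ∈ Dir L, p ∈ Submodule.span ℝ {q, v} → ∀ t : ℝ, 0 ≤ t →
      p + t • -(ctr K L (Submodule.span ℝ {q, v})) ≠ 0 →
      p + t • -(ctr K L (Submodule.span ℝ {q, v})) ∈ Dir L := by
  set S := Submodule.span ℝ {q, v} with hS
  have hqS : q ∈ S := Submodule.subset_span (by simp)
  have hH := ctr_spec (uc_sec h hq hli)
  have hG := Hom.gHom h.hK h.hL hH
  have hq2 : q ∈ Dir L ∩ (S : Set E) := ⟨U_L hq, hqS⟩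
  have hq1 : q ∉ Dir K ∩ (S : Set E) := fun hm => U_not_K hq hm.1
  have hx := GHom.ne_zero h.hK h.hL hG hq2 hq1
  have h1 := (GHom.neg_mem hG hx).2
  have h2 := GHom.neg_notMem h.hK h.hL hG hq2 hq1
  refine ⟨⟨h1.1, fun hm => h2 ⟨hm, h1.2⟩⟩, h1.2, fun p hp hpS t ht hne => ?_⟩
  rw [smul_neg, ← sub_eq_add_neg] at hne ⊢
  exact (GHom.sub_mem h.hK h.hL hG ⟨hp, hpS⟩ ht hne).1

/-- Continuity of `c`. -/
theorem uc_tendsto [FiniteDimensional ℝ E] (h : UC K L) {q v₀ : E}
    (hq : q ∈ interior (Dir L \ Dir K)) (hli : LinearIndependent ℝ ![q, v₀]) :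
    (∀ᶠ v in 𝓝 v₀, LinearIndependent ℝ ![q, v]) ∧
    Tendsto (fun v => -(ctr K L (Submodule.span ℝ {q, v}))) (𝓝 v₀)
        (𝓝 (-(ctr K L (Submodule.span ℝ {q, v₀})))) := by
  have hc : Continuous fun v : E => (![q, v] : Fin 2 → E) := by
    refine continuous_pi fun i => ?_
    fin_cases i
    · exact continuous_const
    · exact continuous_id
  have hev : ∀ᶠ v in 𝓝 v₀, LinearIndependent ℝ ![q, v] :=
    hc.continuousAt.eventually (isOpen_setOfPred_linearIndependent.mem_nhds hli)
  refine ⟨hev, ?_⟩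
  have hqS : q ∈ Submodule.span ℝ {q, v₀} := Submodule.subset_span (by simp)
  obtain ⟨hr1, hr2, hr3⟩ := h.good q (U_sub_int hq) (U_not_K hq) _ (finrank_span_pair hli) hqS
  have hneg := h.neg q (U_sub_int hq) (U_not_K hq)
  refine ((tendsto_ctr_pair h.hK h.hL (F := 𝓝 v₀) tendsto_id hli ?_ hr3 hr1 hr2
    ⟨-q, hneg, Submodule.neg_mem _ hqS⟩ ⟨q, U_L hq, hqS⟩).1).neg
  filter_upwards [hev] with v hv
  exact uc_sec h hq hv

theorem span_eq {q v b : E} (hli : LinearIndependent ℝ ![q, v])
    (hb : b ∈ Submodule.span ℝ {q, v}) (hli' : LinearIndependent ℝ ![q, b]) :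
    Submodule.span ℝ {q, b} = Submodule.span ℝ {q, v} := by
  have hfin : FiniteDimensional ℝ (Submodule.span ℝ {q, v}) :=
    FiniteDimensional.span_of_finite ℝ (by simp)
  refine Submodule.eq_of_le_of_finrank_eq ?_ ?_
  · rw [Submodule.span_le]
    rintro z hz
    rcases hz with rfl | hz
    · exact Submodule.subset_span (by simp)
    · rw [mem_singleton_iff.1 hz]; exact hb
  · rw [finrank_span_pair hli, finrank_span_pair hli']

theorem li_pair {q v : E} (hq : q ≠ 0) (hv : v ∉ Submodule.span ℝ {q}) :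
    LinearIndependent ℝ ![q, v] := by
  rw [LinearIndependent.pair_iff]
  intro s t hst
  have ht : t = 0 := by
    by_contra ht
    apply hv
    rw [Submodule.mem_span_singleton]
    refine ⟨-(t⁻¹ * s), ?_⟩
    have h1 : t • v = -(s • q) := by
      rw [eq_neg_iff_add_eq_zero, add_comm]; exact hst
    calc (-(t⁻¹ * s)) • q = t⁻¹ • (-(s • q)) := by rw [neg_smul, smul_neg, smul_smul]
      _ = v := by rw [← h1, smul_smul, inv_mul_cancel₀ ht, one_smul]
  refine ⟨?_, ht⟩
  rw [ht, zero_smul, add_zero] at hst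
  exact (smul_eq_zero.1 hst).resolve_right hq

theorem notMem_span_of_li {q v : E} (hli : LinearIndependent ℝ ![q, v]) :
    v ∉ Submodule.span ℝ {q} := by
  intro hm
  obtain ⟨a, ha⟩ := Submodule.mem_span_singleton.1 hm
  have h1 := LinearIndependent.pair_iff.1 hli a (-1) (by rw [ha, neg_one_smul, add_neg_cancel])
  norm_num at h1

/-- A functional separating a vector from a line. -/
theorem exists_functional [FiniteDimensional ℝ E] {a b : E} (hb : b ∉ Submodule.span ℝ {a}) :
    ∃ φ : E →ₗ[ℝ] ℝ, Continuous φ ∧ φ a = 0 ∧ φ b = 1 := by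
  obtain ⟨f, hf1, hf2⟩ := Submodule.exists_dual_map_eq_bot_of_notMem hb inferInstance
  refine ⟨(f b)⁻¹ • f, LinearMap.continuous_of_finiteDimensional _, ?_, ?_⟩
  · have h1 : f a ∈ (Submodule.span ℝ {a}).map f :=
      Submodule.mem_map_of_mem (Submodule.mem_span_singleton_self a)
    rw [hf2, Submodule.mem_bot] at h1
    simp [h1]
  · simp [inv_mul_cancel₀ hf1]

/-- The key claim: all interior directions of `L` are in `U`. -/
theorem interior_sub [FiniteDimensional ℝ E] (h : UC K L)
    (hb : ∀ b ∈ interior (Dir L), b ∈ closure (interior (Dir L \ Dir K)) →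
        b ∈ interior (Dir L \ Dir K)) :
    interior (Dir L) ⊆ interior (Dir L \ Dir K) := by
  intro p hp
  by_contra hpU
  have hpc : p ∉ closure (interior (Dir L \ Dir K)) := fun hm => hpU (hb p hp hm)
  set O : Set E := interior (Dir L) ∩ (closure (interior (Dir L \ Dir K)))ᶜ with hO
  have hOo : IsOpen O := isOpen_interior.inter isClosed_closure.isOpen_compl
  have hpO : p ∈ O := ⟨hp, hpc⟩
  obtain ⟨q, hq⟩ := h.nonempty
  have hq0 : q ≠ 0 := (U_L hq).1
  -- a point of `O` off the line of `q`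
  obtain ⟨p₁, hp₁O, hp₁⟩ : ∃ p₁ ∈ O, p₁ ∉ Submodule.span ℝ {q} := by
    by_cases hpq : p ∈ Submodule.span ℝ {q}
    · have hne : Submodule.span ℝ {q} ≠ ⊤ := by
        intro heq
        have h1 : Module.finrank ℝ (Submodule.span ℝ {q}) = 1 := finrank_span_singleton hq0
        rw [heq, finrank_top] at h1
        have := h.dim
        omega
      obtain ⟨w, -, hw⟩ := SetLike.exists_of_lt (lt_top_iff_ne_top.2 hne)
      have hc : Continuous fun t : ℝ => p + t • w := by fun_prop
      have h1 : Tendsto (fun t : ℝ => p + t • w) (𝓝[>] 0) (𝓝 p) :=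
        (hc.tendsto' 0 p (by simp)).mono_left nhdsWithin_le_nhds
      obtain ⟨t, ht, ht0⟩ := ((h1.eventually (hOo.mem_nhds hpO)).and self_mem_nhdsWithin).exists
      have ht0' : 0 < t := ht0
      refine ⟨p + t • w, ht, fun hm => hw ?_⟩
      have h2 := (Submodule.add_mem_iff_right _ hpq).1 hm
      exact (Submodule.smul_mem_iff _ ht0'.ne').1 h2
    · exact ⟨p, hpO, hpq⟩
  have hli₁ := li_pair hq0 hp₁
  set S := Submodule.span ℝ {q, p₁} with hS
  have hqS : q ∈ S := Submodule.subset_span (by simp)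
  have hp₁S : p₁ ∈ S := Submodule.subset_span (by simp)
  set c := -(ctr K L S) with hc
  obtain ⟨hcY, hcS, -⟩ := uc_facts h hq hli₁
  have hc0 : c ≠ 0 := hcY.1.1
  have hcU : c ∈ closure (interior (Dir L \ Dir K)) := uc_Y_sub_closure h hcY
  -- a point of `O` in `S` off the lines of `q` and `c`
  obtain ⟨p₀, hp₀O, hp₀S, hp₀q, hp₀c⟩ : ∃ p₀ ∈ O, p₀ ∈ S ∧ p₀ ∉ Submodule.span ℝ {q} ∧
      p₀ ∉ Submodule.span ℝ {c} := by
    by_cases hpc1 : p₁ ∈ Submodule.span ℝ {c}
    · have hcon : Continuous fun t : ℝ => p₁ + t • q := by fun_prop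
      have h1 : Tendsto (fun t : ℝ => p₁ + t • q) (𝓝[>] 0) (𝓝 p₁) :=
        (hcon.tendsto' 0 p₁ (by simp)).mono_left nhdsWithin_le_nhds
      obtain ⟨t, ht, ht0⟩ := ((h1.eventually (hOo.mem_nhds hp₁O)).and self_mem_nhdsWithin).exists
      have ht0' : 0 < t := ht0
      refine ⟨p₁ + t • q, ht, S.add_mem hp₁S (S.smul_mem _ hqS), fun hm => ?_, fun hm => ?_⟩
      · exact hp₁ ((Submodule.add_mem_iff_left _ (Submodule.smul_mem _ _
          (Submodule.mem_span_singleton_self q))).1 hm)
      · have h2 := (Submodule.add_mem_iff_right _ hpc1).1 hm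
        have h3 := (Submodule.smul_mem_iff _ ht0'.ne').1 h2
        obtain ⟨a, ha⟩ := Submodule.mem_span_singleton.1 h3
        obtain ⟨b, hb'⟩ := Submodule.mem_span_singleton.1 hpc1
        have ha0 : a ≠ 0 := by
          rintro rfl
          rw [zero_smul] at ha
          exact hq0 ha.symm
        apply hp₁
        rw [Submodule.mem_span_singleton]
        refine ⟨b * a⁻¹, ?_⟩
        rw [← ha, smul_smul, mul_assoc, inv_mul_cancel₀ ha0, mul_one, hb']
    · exact ⟨p₁, hp₁O, hp₁S, hp₁, hpc1⟩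
  have hp₀0 : p₀ ≠ 0 := by
    rintro rfl
    exact hp₀q (Submodule.zero_mem _)
  have hp₀L : p₀ ∈ interior (Dir L) := hp₀O.1
  have hp₀U : p₀ ∉ closure (interior (Dir L \ Dir K)) := hp₀O.2
  by_cases hcase : ∃ τ : ℝ, 0 ≤ τ ∧ p₀ + τ • c ∈ closure (interior (Dir L \ Dir K))
  · -- Case 1
    set I : Set ℝ := {τ : ℝ | 0 ≤ τ ∧ p₀ + τ • c ∈ closure (interior (Dir L \ Dir K))} with hI
    have hIne : I.Nonempty := hcase
    have hIb : BddBelow I := ⟨0, fun τ hτ => hτ.1⟩
    have hIc : IsClosed I := by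
      have hcon : Continuous fun t : ℝ => p₀ + t • c := by fun_prop
      exact isClosed_Ici.inter (isClosed_closure.preimage hcon)
    set τ₁ := sInf I with hτ₁
    have hmem : τ₁ ∈ I := hIc.csInf_mem hIne hIb
    set b := p₀ + τ₁ • c with hbdef
    have hτ₁0 : 0 < τ₁ := by
      rcases hmem.1.lt_or_eq with h1 | h1
      · exact h1
      · exfalso
        have h2 := hmem.2
        rw [← h1, zero_smul, add_zero] at h2
        exact hp₀U h2
    have hbU : b ∉ interior (Dir L \ Dir K) := by
      intro hm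
      have hcon : Continuous fun t : ℝ => p₀ + t • c := by fun_prop
      have h1 : Tendsto (fun t : ℝ => p₀ + t • c) (𝓝[<] τ₁) (𝓝 b) :=
        (hcon.tendsto' τ₁ b rfl).mono_left nhdsWithin_le_nhds
      have h2 : ∀ᶠ t : ℝ in 𝓝[<] τ₁, 0 < t := nhdsWithin_le_nhds (lt_mem_nhds hτ₁0)
      obtain ⟨t, ⟨ht, ht1⟩, ht2⟩ :=
        (((h1.eventually (isOpen_interior.mem_nhds hm)).and h2).and self_mem_nhdsWithin).exists
      have h3 : τ₁ ≤ t := csInf_le hIb ⟨ht1.le, subset_closure ht⟩
      exact absurd ht2 (not_lt.2 h3)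
    have hb0 : b ≠ 0 := by
      intro h0
      apply hp₀c
      rw [Submodule.mem_span_singleton]
      refine ⟨-τ₁, ?_⟩
      rw [neg_smul, eq_comm, ← add_eq_zero_iff_eq_neg]
      exact h0
    have hbS : b ∈ S := S.add_mem hp₀S (S.smul_mem _ hcS)
    have hbq : b ∉ Submodule.span ℝ {q} := by
      intro hm
      obtain ⟨a, ha⟩ := Submodule.mem_span_singleton.1 hm
      rcases lt_trichotomy a 0 with h1 | h1 | h1
      · have h2 : b ∈ interior (Dir K) := by
          have h3 := (smul_mem_interior_Dir (K := K) (z := -q) (neg_pos.2 h1)).2 (h.neg_mem q hq)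
          rwa [smul_neg, neg_smul, neg_neg, ha] at h3
        exact uc_not_mem_closure h h2 hmem.2
      · rw [h1, zero_smul] at ha
        exact hb0 ha.symm
      · exact hbU (ha ▸ smul_U hq h1)
    have hlib := li_pair hq0 hbq
    have hSb : Submodule.span ℝ {q, b} = S := span_eq hli₁ hbS hlib
    obtain ⟨hev, htend⟩ := uc_tendsto h hq hlib
    rw [hSb] at htend
    have hsub : Tendsto (fun v : E => v - τ₁ • -(ctr K L (Submodule.span ℝ {q, v}))) (𝓝 b)
        (𝓝 p₀) := by
      have h1 : Tendsto (fun v : E => v - τ₁ • -(ctr K L (Submodule.span ℝ {q, v}))) (𝓝 b)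
          (𝓝 (b - τ₁ • c)) := tendsto_id.sub (htend.const_smul τ₁)
      have h2 : b - τ₁ • c = p₀ := by rw [hbdef]; abel
      rwa [h2] at h1
    have hbint : b ∈ interior (Dir L) := by
      rw [mem_interior_iff_mem_nhds]
      filter_upwards [hev, hsub.eventually (isOpen_interior.mem_nhds hp₀L),
        isOpen_ne.mem_nhds hb0] with v hv1 hv2 hv3
      obtain ⟨hy1, hy2, hy3⟩ := uc_facts h hq hv1
      have hvS : v ∈ Submodule.span ℝ {q, v} := Submodule.subset_span (by simp)
      have h4 := hy3 _ (interior_subset hv2)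
        (Submodule.sub_mem _ hvS (Submodule.smul_mem _ _ hy2)) τ₁ hτ₁0.le
        (by rw [sub_add_cancel]; exact hv3)
      rwa [sub_add_cancel] at h4
    exact hbU (hb b hbint hmem.2)
  · -- Case 2
    push Not at hcase
    have hcq : c ∉ Submodule.span ℝ {q} := by
      intro hm
      obtain ⟨a, ha⟩ := Submodule.mem_span_singleton.1 hm
      rcases lt_trichotomy a 0 with h1 | h1 | h1
      · have h2 : c ∈ interior (Dir K) := by
          have h3 := (smul_mem_interior_Dir (K := K) (z := -q) (neg_pos.2 h1)).2 (h.neg_mem q hq)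
          rwa [smul_neg, neg_smul, neg_neg, ha] at h3
        exact hcY.2 (interior_subset h2)
      · rw [h1, zero_smul] at ha
        exact hc0 ha.symm
      · have h2 : c ∈ interior (Dir L \ Dir K) := ha ▸ smul_U hq h1
        obtain ⟨T, hT, hT2⟩ := uc_exists_add h h2 p₀
        exact hcase T hT.le (subset_closure hT2)
    have hcU' : c ∉ interior (Dir L \ Dir K) := by
      intro h2
      obtain ⟨T, hT, hT2⟩ := uc_exists_add h h2 p₀
      exact hcase T hT.le (subset_closure hT2)
    have hlic := li_pair hq0 hcq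
    have hSc : Submodule.span ℝ {q, c} = S := span_eq hli₁ hcS hlic
    obtain ⟨b₀, a₀, hab⟩ : ∃ b₀ a₀ : ℝ, b₀ • q + a₀ • c = p₀ := by
      have h1 : p₀ ∈ Submodule.span ℝ {q, c} := hSc ▸ hp₀S
      exact Submodule.mem_span_pair.1 h1
    have hb₀ : b₀ < 0 := by
      rcases lt_trichotomy b₀ 0 with h1 | h1 | h1
      · exact h1
      · exfalso
        rw [h1, zero_smul, zero_add] at hab
        exact hp₀c (hab ▸ Submodule.smul_mem _ _ (Submodule.mem_span_singleton_self c))
      · exfalso
        have h2 : 0 < |a₀| + 1 := by positivity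
        have h3 : 0 < a₀ + (|a₀| + 1) := by
          have := neg_abs_le a₀
          linarith
        apply hcase (|a₀| + 1) h2.le
        have h4 := uc_add2 h hq hcY h3 h1
        have h5 : (a₀ + (|a₀| + 1)) • c + b₀ • q = p₀ + (|a₀| + 1) • c := by
          rw [← hab, add_smul]; abel
        rw [h5] at h4
        exact subset_closure h4
    -- coordinates
    have hqc : q ∉ Submodule.span ℝ {c} := by
      intro hm
      obtain ⟨a, ha⟩ := Submodule.mem_span_singleton.1 hm
      apply hcq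
      have ha0 : a ≠ 0 := by
        rintro rfl
        rw [zero_smul] at ha
        exact hq0 ha.symm
      rw [Submodule.mem_span_singleton]
      exact ⟨a⁻¹, by rw [← ha, smul_smul, inv_mul_cancel₀ ha0, one_smul]⟩
    obtain ⟨φ, hφ, hφq, hφc⟩ := exists_functional hcq
    obtain ⟨ψ, hψ, hψc, hψq⟩ := exists_functional hqc
    obtain ⟨hev, htend⟩ := uc_tendsto h hq hlic
    rw [hSc] at htend
    set C : E → E := fun v => -(ctr K L (Submodule.span ℝ {q, v})) with hCdef
    have htC : Tendsto C (𝓝 c) (𝓝 c) := htend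
    -- `v = α C v + β q`
    set α : E → ℝ := fun v => φ v / φ (C v) with hα
    set β : E → ℝ := fun v => ψ v - α v * ψ (C v) with hβ
    have hφC : Tendsto (fun v => φ (C v)) (𝓝 c) (𝓝 1) := by
      have := (hφ.tendsto c).comp htC
      rwa [hφc] at this
    have hα1 : Tendsto α (𝓝 c) (𝓝 1) := by
      have h1 : Tendsto φ (𝓝 c) (𝓝 1) := by
        have := hφ.tendsto c
        rwa [hφc] at this
      have h2 := h1.div hφC one_ne_zero
      rwa [div_one] at h2
    have hβ0 : Tendsto β (𝓝 c) (𝓝 0) := by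
      have h1 : Tendsto ψ (𝓝 c) (𝓝 0) := by
        have := hψ.tendsto c
        rwa [hψc] at this
      have h2 : Tendsto (fun v => ψ (C v)) (𝓝 c) (𝓝 0) := by
        have := (hψ.tendsto c).comp htC
        rwa [hψc] at this
      have h3 := h1.sub (hα1.mul h2)
      simpa using h3
    have hφpos : ∀ᶠ v in 𝓝 c, φ (C v) ≠ 0 := hφC.eventually_ne one_ne_zero
    have hcint : c ∈ interior (Dir L) := by
      rw [mem_interior_iff_mem_nhds]
      -- the first term
      have hfirst : Tendsto (fun v => b₀ • q + a₀ • C v) (𝓝 c) (𝓝 p₀) := by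
        have h1 := (tendsto_const_nhds (x := b₀ • q)).add (htC.const_smul a₀)
        rwa [hab] at h1
      have hlam : ∀ᶠ v in 𝓝 c, β v < 0 → 0 < α v / (β v / b₀) - a₀ := by
        have h1 : ∀ᶠ v in 𝓝 c, (1 / 2 : ℝ) < α v := hα1.eventually (lt_mem_nhds (by norm_num))
        have h2 : ∀ᶠ v in 𝓝 c, |β v| * (|a₀| + 1) < 1 / 4 * |b₀| := by
          have h3 : Tendsto (fun v => |β v| * (|a₀| + 1)) (𝓝 c) (𝓝 0) := by
            have := hβ0.abs.mul_const (|a₀| + 1)
            simpa using this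
          refine h3.eventually (gt_mem_nhds ?_)
          have : 0 < |b₀| := abs_pos.2 hb₀.ne
          positivity
        filter_upwards [h1, h2] with v hv1 hv2 hv3
        have h4 : 0 < β v / b₀ := div_pos_of_neg_of_neg hv3 hb₀
        rw [sub_pos, lt_div_iff₀ h4]
        have h5 : β v / b₀ = |β v| / |b₀| := by
          rw [abs_of_neg hv3, abs_of_neg hb₀, neg_div_neg_eq]
        have h6 : 0 < |b₀| := abs_pos.2 hb₀.ne
        have h7 : a₀ * (β v / b₀) ≤ (|a₀| + 1) * (β v / b₀) := by
          have := le_abs_self a₀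
          gcongr
          linarith
        have h8 : (|a₀| + 1) * (β v / b₀) < 1 / 4 := by
          rw [h5, ← mul_div_assoc, div_lt_iff₀ h6, mul_comm]
          exact hv2
        linarith
      have hαpos : ∀ᶠ v in 𝓝 c, 0 < α v := hα1.eventually (lt_mem_nhds one_pos)
      filter_upwards [hev, hfirst.eventually (isOpen_interior.mem_nhds hp₀L), hφpos, hlam, hαpos,
        isOpen_ne.mem_nhds hc0] with v hv1 hv2 hv3 hv4 hv5 hv6
      obtain ⟨hy1, hy2, hy3⟩ := uc_facts h hq hv1
      change C v ∈ Dir L \ Dir K at hy1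
      change C v ∈ Submodule.span ℝ {q, v} at hy2
      -- decomposition
      obtain ⟨r, s, hrs⟩ := Submodule.mem_span_pair.1 hy2
      have hφrs : φ (C v) = s * φ v := by
        rw [← hrs, map_add, map_smul, map_smul, hφq]; simp
      have hs0 : s ≠ 0 := by
        rintro rfl
        rw [zero_mul] at hφrs
        exact hv3 hφrs
      have hφv : φ v ≠ 0 := by
        intro h0
        rw [h0, mul_zero] at hφrs
        exact hv3 hφrs
      have hαs : α v = s⁻¹ := by
        simp only [hα]
        rw [hφrs]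
        field_simp
      have hβr : β v = -(s⁻¹ * r) := by
        simp only [hβ]
        rw [hαs, ← hrs, map_add, map_smul, map_smul, hψq]
        simp only [smul_eq_mul, mul_one]
        field_simp
        ring
      have hdec : v = α v • C v + β v • q := by
        rw [hαs, hβr, ← hrs, smul_add, smul_smul, smul_smul, inv_mul_cancel₀ hs0, one_smul,
          neg_smul]
        abel
      rcases lt_trichotomy (β v) 0 with h1 | h1 | h1
      · -- `β < 0`
        have hl : 0 < β v / b₀ := div_pos_of_neg_of_neg h1 hb₀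
        have hCS : C v ∈ Submodule.span ℝ {q, v} := hy2
        have hqv : q ∈ Submodule.span ℝ {q, v} := Submodule.subset_span (by simp)
        have hv7 : (β v / b₀)⁻¹ • v =
            (b₀ • q + a₀ • C v) + (α v / (β v / b₀) - a₀) • C v := by
          have e0 : (β v / b₀)⁻¹ • v = (β v / b₀)⁻¹ • (α v • C v + β v • q) := by rw [← hdec]
          rw [e0, smul_add, smul_smul, smul_smul, sub_smul]
          have e1 : (β v / b₀)⁻¹ * α v = α v / (β v / b₀) := by ring
          have e2 : (β v / b₀)⁻¹ * β v = b₀ := by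
            have := h1.ne
            have := hb₀.ne
            field_simp
          rw [e1, e2]
          abel
        have h8 := hy3 _ (interior_subset hv2)
          (Submodule.add_mem _ (Submodule.smul_mem _ _ hqv) (Submodule.smul_mem _ _ hCS))
          (α v / (β v / b₀) - a₀) (hv4 h1).le (by
            change b₀ • q + a₀ • C v + (α v / (β v / b₀) - a₀) • C v ≠ 0
            rw [← hv7]
            exact smul_ne_zero (inv_ne_zero hl.ne') hv6)
        change b₀ • q + a₀ • C v + (α v / (β v / b₀) - a₀) • C v ∈ Dir L at h8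
        rw [← hv7] at h8
        exact (smul_mem_Dir (inv_pos.2 hl)).1 h8
      · rw [h1, zero_smul, add_zero] at hdec
        rw [hdec]
        exact (smul_mem_Dir hv5).2 hy1.1
      · rw [hdec]
        exact U_L (uc_add2 h hq hy1 hv5 h1)
    exact hcU' (hb c hcint hcU)

theorem a7 : LastStmt := by
  intro E _ _ _ K L h hb h0
  have hsub := interior_sub h hb
  set U := interior (Dir L \ Dir K) with hU
  have hcl : Dir L ⊆ closure U := fun z hz => closure_mono hsub (h.hL.reg hz)
  have hconv : Convex ℝ U := by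
    intro a ha b hb' s t hs ht hst
    rcases hs.eq_or_lt with rfl | hs'
    · rw [zero_add] at hst
      rw [hst, zero_smul, zero_add, one_smul]; exact hb'
    · rcases ht.eq_or_lt with rfl | ht'
      · rw [add_zero] at hst
        rw [hst, zero_smul, add_zero, one_smul]; exact ha
      · exact uc_add2 h hb' (interior_subset ha) hs' ht'
  have h0U : (0 : E) ∉ U := fun hm => zero_notMem_Dir (U_L hm)
  obtain ⟨f, hf⟩ := geometric_hahn_banach_open_point hconv isOpen_interior h0U
  rw [map_zero] at hf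
  have hfL : ∀ z ∈ L, f z ≤ 0 := by
    intro z hz
    by_cases hz0 : z = 0
    · rw [hz0, map_zero]
    · have h1 : z ∈ closure U := hcl (mem_Dir hz hz0)
      have h2 : closure U ⊆ {w | f w ≤ 0} :=
        closure_minimal (fun w hw => (hf w hw).le) (isClosed_le f.continuous continuous_const)
      exact h2 h1
  have hfc : convexHull ℝ L ⊆ {w | f w ≤ 0} := by
    refine convexHull_min hfL ?_
    exact convex_halfSpace_le f.isLinear 0
  obtain ⟨q, hq⟩ := h.nonempty
  have hcon : Continuous fun t : ℝ => t • -q := by fun_prop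
  have h1 : Tendsto (fun t : ℝ => t • -q) (𝓝[>] 0) (𝓝 0) :=
    (hcon.tendsto' 0 0 (by simp)).mono_left nhdsWithin_le_nhds
  obtain ⟨t, ht, ht0⟩ :=
    ((h1.eventually (isOpen_interior.mem_nhds h0)).and self_mem_nhdsWithin).exists
  have ht0' : 0 < t := ht0
  have h2 : f (t • -q) ≤ 0 := hfc (interior_subset ht)
  rw [map_smul, map_neg, smul_eq_mul] at h2
  have h3 := hf q hq
  nlinarith

end Pool.Agent.H87.SB
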